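import Pool.Agent.Lib.MP_9a9528_al.Ord

/-!
# The Engel elements of an orderable group need not form a subgroup

There is a finitely generated group `G` with a total order invariant under multiplication on both
sides, and there are Engel elements `g`, `h` of `G` such that `g * h` is not an Engel element.

Sketch of the construction. In the free ring `ℤ⟨p, q⟩` let `C` be the set of the noncommutative
polynomials `f` (seen as functionals for which words are orthonormal) such that for every `k` one
can write `f` in `V ^ e * Z_k ^ i * V ^ e'` with `e, e' < len k`; here `V` is spanned by the letters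
and `Z_k` by the elements `zeta k b` of degree `len k`, defined by recursion as a standard
polynomial in `k` groups of elements of the previous level followed by a product of such elements,
the letters being read off the paperfolding sequence. The annihilator `I` of `C` is a two sided
ideal. If `r` has no constant term, the functionals `f ↦ ⟨f, r ^ M⟩` all factor through one
representation by matrices over `ℤ[X]`, in which the standard polynomials of large degree vanish;
so the augmentation ideal of `B = ℤ⟨p, q⟩ / I` is nil. The group `G` is generated by the matrices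
`1 + E10`, `1 + E21` and `w = 1 + p E01 + (p + q) E02` over `B`. Nilpotency of the elements of the
augmentation ideal of `B` shows that the first two are Engel elements. The product
`g = (1 + E10)(1 + E21)` is not: with `z 0 = w⁻¹` and `z (n + 1) = z n * g * (z n)⁻¹`, the leading
term of the entry `(0, 1)` of `z n` is up to sign the paperfolding word of length `2 ^ n`, which
is not in `I` plus the terms of smaller degree when `2 ^ n = len K`. Finally `G` is ordered by means
of the coordinates `(z i j, f)`, `f ∈ C`, sorted by a weight which all generators raise.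
-/

set_option autoImplicit false

namespace Pool.Agent.Results.MP_9a9528_al.EngelNotSubgroup

open MP9a9528

/-- There is a finitely generated orderable (hence right orderable) group in which the Engel
elements do not form a subgroup, as a product of two Engel elements need not be an Engel element. -/
theorem result :
    ∃ (G : Type) (_ : Group G), Group.FG G ∧ Orderable G ∧ RightOrderable G ∧
      (∃ g h : G, IsEngelElt g ∧ IsEngelElt h ∧ ¬ IsEngelElt (g * h)) ∧
      ¬ ∃ H : Subgroup G, ∀ g : G, g ∈ H ↔ IsEngelElt g := by
  obtain ⟨o, ho⟩ := exists_order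
  have m1 : pu u1 ∈ Gs := Subgroup.subset_closure (by simp)
  have m2 : pu u2 ∈ Gs := Subgroup.subset_closure (by simp)
  have mw : pu uw ∈ Gs := Subgroup.subset_closure (by simp)
  have key : ∀ (x g : Gs) (n : ℕ), icomm x g n = 1 ↔ icomm (x : MBˣ) (g : MBˣ) n = 1 := by
    intro x g n
    have := map_icomm Gs.subtype x g n
    rw [Subgroup.coe_subtype] at this
    rw [← this, OneMemClass.coe_eq_one]
  have h12 : ∃ g h : Gs, IsEngelElt g ∧ IsEngelElt h ∧ ¬ IsEngelElt (g * h) := by
    refine ⟨⟨pu u1, m1⟩, ⟨pu u2, m2⟩, ?_, ?_, ?_⟩
    · intro x
      obtain ⟨n, hn, h⟩ := engel1 x.2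
      exact ⟨n, hn, (key _ _ _).mpr h⟩
    · intro x
      obtain ⟨n, hn, h⟩ := engel2 x.2
      exact ⟨n, hn, (key _ _ _).mpr h⟩
    · intro hE
      obtain ⟨n, hn, h⟩ := hE ⟨pu uw, mw⟩
      apply not_engel
      refine ⟨n, hn, ?_⟩
      have h' := (key _ _ _).mp h
      rw [ug, map_mul]
      exact h'
  refine ⟨Gs, inferInstance, ?_, ⟨o, ho⟩, ⟨o, fun a b c h => (ho a b c h).1⟩, h12, ?_⟩
  · rw [Group.fg_iff_subgroup_fg]
    exact (Subgroup.fg_iff Gs).mpr ⟨{pu u1, pu u2, pu uw}, rfl, Set.toFinite _⟩
  · rintro ⟨H, hH⟩
    obtain ⟨g, h, hg, hh, hgh⟩ := h12
    exact hgh ((hH _).mp (H.mul_mem ((hH _).mpr hg) ((hH _).mpr hh)))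

end Pool.Agent.Results.MP_9a9528_al.EngelNotSubgroup
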